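import Pool.Agent.Helper21.D2.Stmts

set_option autoImplicit false

/-!
Module FCT of project D2 (MP_4e1cf2_ag): rational tensors which are conjugate to `Q⁻¹ ⊗ Q`.
-/

namespace Pool.Agent.Helper21.TH

open Matrix Finset Pool.Agent.Helper82.AHS

theorem FCT.sum2 {r : ℕ} {M : Type*} [AddCommMonoid M] (f : Fin r → Fin r → M) :
    ∑ k : Fin 2 → Fin r, f (k 0) (k 1) = ∑ a, ∑ b, f a b := by
  rw [← Fintype.sum_prod_type' (f := f)]
  exact Fintype.sum_equiv (finTwoArrowEquiv (Fin r)) _ _ (fun k => rfl)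

/-- The covector of a matrix under the second tensor power. -/
theorem FCT.row {r : ℕ} {K : Type*} [Field K] (B H : Matrix (Fin r) (Fin r) K)
    (j : Fin 2 → Fin r) :
    ∑ l : Fin 2 → Fin r, B (l 0) (l 1) * pw 2 H l j = (Hᵀ * B * H) (j 0) (j 1) := by
  have h : ∀ l : Fin 2 → Fin r, B (l 0) (l 1) * pw 2 H l j =
      (fun a b => B a b * (H a (j 0) * H b (j 1))) (l 0) (l 1) := by
    intro l
    show B (l 0) (l 1) * (∏ a, H (l a) (j a)) = B (l 0) (l 1) * (H (l 0) (j 0) * H (l 1) (j 1))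
    rw [Fin.prod_univ_two]
  rw [Finset.sum_congr rfl fun l _ => h l]
  refine (FCT.sum2 (fun a b => B a b * (H a (j 0) * H b (j 1)))).trans ?_
  simp only [Matrix.mul_apply, Matrix.transpose_apply, Finset.sum_mul]
  rw [Finset.sum_comm]
  refine Finset.sum_congr rfl fun b _ => Finset.sum_congr rfl fun a _ => ?_
  ring

/-- The vector of a matrix under the second tensor power. -/
theorem FCT.col {r : ℕ} {K : Type*} [Field K] (A G : Matrix (Fin r) (Fin r) K)
    (i : Fin 2 → Fin r) :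
    ∑ k : Fin 2 → Fin r, pw 2 G i k * A (k 0) (k 1) = (G * A * Gᵀ) (i 0) (i 1) := by
  have h : ∀ k : Fin 2 → Fin r, pw 2 G i k * A (k 0) (k 1) =
      (fun a b => G (i 0) a * G (i 1) b * A a b) (k 0) (k 1) := by
    intro l
    show (∏ a, G (i a) (l a)) * A (l 0) (l 1) = G (i 0) (l 0) * G (i 1) (l 1) * A (l 0) (l 1)
    rw [Fin.prod_univ_two]
  rw [Finset.sum_congr rfl fun l _ => h l]
  refine (FCT.sum2 (fun a b => G (i 0) a * G (i 1) b * A a b)).trans ?_
  simp only [Matrix.mul_apply, Matrix.transpose_apply, Finset.sum_mul]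
  rw [Finset.sum_comm]
  refine Finset.sum_congr rfl fun b _ => Finset.sum_congr rfl fun a _ => ?_
  ring

theorem FCT.inv_map {r : ℕ} (Q : Matrix (Fin r) (Fin r) ℚ) (hQ : Q.det ≠ 0) :
    Q⁻¹.map (algebraMap ℚ ℂ) * Q.map (algebraMap ℚ ℂ) = 1 := by
  rw [← Matrix.map_mul, Matrix.nonsing_inv_mul Q (isUnit_iff_ne_zero.mpr hQ)]
  exact Matrix.map_one _ (map_zero _) (map_one _)

theorem FCT.act_pol {r : ℕ} (Q : Matrix (Fin r) (Fin r) ℚ) (g : GL (Fin r) ℂ)
    (i j : Fin 2 → Fin r) :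
    act g (up ℂ (polT Q)) i j =
      ((g : Matrix (Fin r) (Fin r) ℂ) * Q⁻¹.map (algebraMap ℚ ℂ) *
        (g : Matrix (Fin r) (Fin r) ℂ)ᵀ) (i 0) (i 1) *
      ((((g⁻¹ : GL (Fin r) ℂ) : Matrix (Fin r) (Fin r) ℂ))ᵀ * Q.map (algebraMap ℚ ℂ) *
        ((g⁻¹ : GL (Fin r) ℂ) : Matrix (Fin r) (Fin r) ℂ)) (j 0) (j 1) := by
  rw [← FCT.col, ← FCT.row, act, Matrix.mul_apply]
  rw [Finset.sum_mul_sum, Finset.sum_comm]
  refine Finset.sum_congr rfl fun l _ => ?_
  rw [Matrix.mul_apply, Finset.sum_mul]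
  refine Finset.sum_congr rfl fun k _ => ?_
  have : up ℂ (polT Q) k l = Q⁻¹.map (algebraMap ℚ ℂ) (k 0) (k 1) *
      Q.map (algebraMap ℚ ℂ) (l 0) (l 1) := by
    simp only [up, polT, Matrix.map_apply, Matrix.of_apply, map_mul]
  rw [this]
  ring

theorem FCT.act_form {r : ℕ} (Q : Matrix (Fin r) (Fin r) ℚ) (g : GL (Fin r) ℂ)
    (i : Fin 0 → Fin r) (j : Fin 2 → Fin r) :
    act g (up ℂ (formT Q)) i j =
      ((((g⁻¹ : GL (Fin r) ℂ) : Matrix (Fin r) (Fin r) ℂ))ᵀ * Q.map (algebraMap ℚ ℂ) *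
        ((g⁻¹ : GL (Fin r) ℂ) : Matrix (Fin r) (Fin r) ℂ)) (j 0) (j 1) := by
  rw [← FCT.row, act, Matrix.mul_apply]
  refine Finset.sum_congr rfl fun l _ => ?_
  rw [Matrix.mul_apply, Fintype.sum_eq_single i (fun k hk => absurd (Subsingleton.elim k i) hk)]
  simp only [pw, pwf, Finset.univ_eq_empty, Finset.prod_empty, one_mul, up, formT,
    Matrix.map_apply, Matrix.of_apply]

/-- The transported inverse and form are inverse to each other. -/
theorem FCT.AB {r : ℕ} (Q : Matrix (Fin r) (Fin r) ℚ) (g : GL (Fin r) ℂ) (hQ : Q.det ≠ 0) :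
    ((g : Matrix (Fin r) (Fin r) ℂ) * Q⁻¹.map (algebraMap ℚ ℂ) *
        (g : Matrix (Fin r) (Fin r) ℂ)ᵀ) *
      ((((g⁻¹ : GL (Fin r) ℂ) : Matrix (Fin r) (Fin r) ℂ))ᵀ * Q.map (algebraMap ℚ ℂ) *
        ((g⁻¹ : GL (Fin r) ℂ) : Matrix (Fin r) (Fin r) ℂ)) = 1 := by
  have h1 : ((g⁻¹ : GL (Fin r) ℂ) : Matrix (Fin r) (Fin r) ℂ) *
      (g : Matrix (Fin r) (Fin r) ℂ) = 1 := by
    rw [← Units.val_mul, inv_mul_cancel, Units.val_one]
  have h2 : (g : Matrix (Fin r) (Fin r) ℂ) *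
      ((g⁻¹ : GL (Fin r) ℂ) : Matrix (Fin r) (Fin r) ℂ) = 1 := by
    rw [← Units.val_mul, mul_inv_cancel, Units.val_one]
  have h3 : (g : Matrix (Fin r) (Fin r) ℂ)ᵀ *
      (((g⁻¹ : GL (Fin r) ℂ) : Matrix (Fin r) (Fin r) ℂ))ᵀ = 1 := by
    rw [← Matrix.transpose_mul, h1, Matrix.transpose_one]
  have h4 := FCT.inv_map Q hQ
  generalize (g : Matrix (Fin r) (Fin r) ℂ)ᵀ = Gt at *
  generalize (((g⁻¹ : GL (Fin r) ℂ) : Matrix (Fin r) (Fin r) ℂ))ᵀ = Ht at *
  generalize (g : Matrix (Fin r) (Fin r) ℂ) = G at *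
  generalize ((g⁻¹ : GL (Fin r) ℂ) : Matrix (Fin r) (Fin r) ℂ) = H at *
  generalize Q⁻¹.map (algebraMap ℚ ℂ) = P at *
  generalize Q.map (algebraMap ℚ ℂ) = R at *
  calc G * P * Gt * (Ht * R * H) = G * P * (Gt * Ht) * R * H := by
        simp only [Matrix.mul_assoc]
    _ = G * (P * R) * H := by rw [h3]; simp only [Matrix.mul_assoc, Matrix.one_mul]
    _ = 1 := by rw [h4, Matrix.mul_one, h2]

theorem FCT.map_inj {r : ℕ} {A B : Matrix (Fin r) (Fin r) ℚ}
    (h : A.map (algebraMap ℚ ℂ) = B.map (algebraMap ℚ ℂ)) : A = B := by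
  ext i j
  have h1 := congrFun (congrFun h i) j
  rw [Matrix.map_apply, Matrix.map_apply] at h1
  exact (algebraMap ℚ ℂ).injective h1

theorem FCT.vec2 {r : ℕ} (k : Fin 2 → Fin r) : ![k 0, k 1] = k := by
  funext i
  fin_cases i <;> rfl

theorem st_FCT : ST_FCT := by
  intro r Q g hQ
  have hAB := FCT.AB Q g hQ
  have hact := FCT.act_pol Q g
  have hactF := FCT.act_form Q g
  generalize ((g : Matrix (Fin r) (Fin r) ℂ) * Q⁻¹.map (algebraMap ℚ ℂ) *
        (g : Matrix (Fin r) (Fin r) ℂ)ᵀ) = A at hAB hact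
  generalize ((((g⁻¹ : GL (Fin r) ℂ) : Matrix (Fin r) (Fin r) ℂ))ᵀ * Q.map (algebraMap ℚ ℂ) *
        ((g⁻¹ : GL (Fin r) ℂ) : Matrix (Fin r) (Fin r) ℂ)) = B at hAB hact hactF
  refine ⟨fun t ht => ?_, fun t ht => ?_⟩
  · have h1 : ∀ i j, algebraMap ℚ ℂ (t i j) = A (i 0) (i 1) * B (j 0) (j 1) := by
      intro i j
      rw [← hact, ← ht]
      rfl
    rcases Nat.eq_zero_or_pos r with hr | hr
    · subst hr
      exact ⟨Q, hQ, by ext i; exact (i 0).elim0⟩
    · have hA : ∃ a b, A a b ≠ 0 := by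
        by_contra hc
        push Not at hc
        have : A = 0 := by ext a b; exact hc a b
        rw [this, Matrix.zero_mul] at hAB
        have h2 := congrFun (congrFun hAB ⟨0, hr⟩) ⟨0, hr⟩
        rw [Matrix.zero_apply, Matrix.one_apply_eq] at h2
        exact zero_ne_one h2
      have hB : ∃ a b, B a b ≠ 0 := by
        by_contra hc
        push Not at hc
        have : B = 0 := by ext a b; exact hc a b
        rw [this, Matrix.mul_zero] at hAB
        have h2 := congrFun (congrFun hAB ⟨0, hr⟩) ⟨0, hr⟩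
        rw [Matrix.zero_apply, Matrix.one_apply_eq] at h2
        exact zero_ne_one h2
      obtain ⟨a0, a1, ha⟩ := hA
      obtain ⟨b0, b1, hb⟩ := hB
      have hc : algebraMap ℚ ℂ (t ![a0, a1] ![b0, b1]) = A a0 a1 * B b0 b1 := h1 _ _
      set P' : Matrix (Fin r) (Fin r) ℚ :=
        of fun a b => t ![a, b] ![b0, b1] / t ![a0, a1] ![b0, b1] with hP'
      set Q' : Matrix (Fin r) (Fin r) ℚ := of fun a b => t ![a0, a1] ![a, b] with hQ'
      have hPm : ∀ a b, algebraMap ℚ ℂ (P' a b) = A a b / A a0 a1 := by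
        intro a b
        have h2 : algebraMap ℚ ℂ (t ![a, b] ![b0, b1]) = A a b * B b0 b1 := h1 _ _
        rw [hP', Matrix.of_apply, map_div₀, h2, hc]
        field_simp
      have hQm : ∀ a b, algebraMap ℚ ℂ (Q' a b) = A a0 a1 * B a b := by
        intro a b
        exact h1 _ _
      have hPQ : P' * Q' = 1 := by
        apply FCT.map_inj
        rw [Matrix.map_mul, Matrix.map_one _ (map_zero _) (map_one _), ← hAB]
        ext a b
        rw [Matrix.mul_apply, Matrix.mul_apply]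
        refine Finset.sum_congr rfl fun k _ => ?_
        rw [Matrix.map_apply, Matrix.map_apply, hPm, hQm]
        field_simp
      have hdet : Q'.det ≠ 0 := by
        intro h0
        have h2 := congrArg Matrix.det hPQ
        rw [Matrix.det_mul, h0, mul_zero, Matrix.det_one] at h2
        exact zero_ne_one h2
      refine ⟨Q', hdet, ?_⟩
      have hinv : Q'⁻¹ = P' := Matrix.inv_eq_left_inv hPQ
      ext i j
      rw [polT, Matrix.of_apply, hinv]
      apply (algebraMap ℚ ℂ).injective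
      rw [map_mul, hPm, hQm, h1]
      field_simp
  · have h1 : ∀ j, algebraMap ℚ ℂ (t (fun i => i.elim0) j) = B (j 0) (j 1) := by
      intro j
      rw [← hactF (fun i => i.elim0), ← ht]
      rfl
    set Q' : Matrix (Fin r) (Fin r) ℚ := of fun a b => t (fun i => i.elim0) ![a, b] with hQ'
    have hQm : Q'.map (algebraMap ℚ ℂ) = B := by
      ext a b
      rw [Matrix.map_apply]
      exact h1 _
    refine ⟨Q', fun h0 => ?_, ?_⟩
    · have h2 : (Q'.map (algebraMap ℚ ℂ)).det = algebraMap ℚ ℂ Q'.det := by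
        rw [RingHom.map_det]
        rfl
      rw [hQm, h0, map_zero] at h2
      have h3 := congrArg Matrix.det hAB
      rw [Matrix.det_mul, h2, mul_zero, Matrix.det_one] at h3
      exact zero_ne_one h3
    · ext i j
      rw [formT, Matrix.of_apply, hQ', Matrix.of_apply, FCT.vec2]
      congr 1
      exact Subsingleton.elim _ _

end Pool.Agent.Helper21.TH
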